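import Mathlib

/-!
# Partially `p`-periodic polynomial sequences: definitions

Filtered nilmanifolds, polynomial sequences, quadratic forms on `F_p^d` and the sets
`poly_p (Ω → G | Γ)` of partially `p`-periodic polynomial sequences.
-/

set_option autoImplicit false

namespace Pool.Agent.N853.PQ

open scoped Manifold ContDiff

/-- An `s`-step filtered nilmanifold `G / Γ`: `G` is a connected, simply connected nilpotent Lie
group, `Γ` a discrete cocompact subgroup, and `F 0 = F 1 = G ⊇ F 2 ⊇ ⋯` a filtration by closed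
connected subgroups which are rational for `Γ` (the quotient of `F i` by `Γ ∩ F i` is compact), with
`[F i, F j] ⊆ F (i + j)` and `F (s + 1) = {id}`. -/
structure FilteredNilmanifold (s : ℕ) where
  /-- the model space of the Lie group -/
  E : Type
  [normedE : NormedAddCommGroup E]
  [spaceE : NormedSpace ℝ E]
  [finiteE : FiniteDimensional ℝ E]
  /-- the Lie group -/
  G : Type
  [group : Group G]
  [topology : TopologicalSpace G]
  [charted : ChartedSpace E G]
  [lie : LieGroup 𝓘(ℝ, E) ∞ G]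
  [t2 : T2Space G]
  [secondCountable : SecondCountableTopology G]
  [connected : ConnectedSpace G]
  [simplyConnected : SimplyConnectedSpace G]
  [nilpotent : Group.IsNilpotent G]
  /-- the lattice -/
  Γ : Subgroup G
  discrete : DiscreteTopology Γ
  cocompact : CompactSpace (G ⧸ Γ)
  /-- the filtration -/
  F : ℕ → Subgroup G
  isClosed : ∀ i, IsClosed (F i : Set G)
  isConnected : ∀ i, IsConnected (F i : Set G)
  rational : ∀ i, CompactSpace (F i ⧸ Γ.subgroupOf (F i))
  zero : F 0 = ⊤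
  one : F 1 = ⊤
  antitone : ∀ i, F (i + 1) ≤ F i
  commutator : ∀ i j, ⁅F i, F j⁆ ≤ F (i + j)
  last : F (s + 1) = ⊥

attribute [instance] FilteredNilmanifold.group FilteredNilmanifold.topology

/-- `Δ_h f (n) = f (n + h) f (n)⁻¹`. -/
def Delta {V G : Type} [AddCommGroup V] [Group G] (h : V) (f : V → G) : V → G :=
  fun n => f (n + h) * (f n)⁻¹

/-- `iterDelta [h_1, …, h_m] f = Δ_{h_m} ⋯ Δ_{h_1} f`. -/
def iterDelta {V G : Type} [AddCommGroup V] [Group G] : List V → (V → G) → V → G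
  | [], f => f
  | h :: l, f => iterDelta l (Delta h f)

/-- `f` is a polynomial sequence for the filtration `F`: `Δ_{h_m} ⋯ Δ_{h_1} f (n) ∈ F m` for all
`m ≥ 0` and all `n, h_1, …, h_m`. -/
def IsPolynomial {V G : Type} [AddCommGroup V] [Group G] (F : ℕ → Subgroup G) (f : V → G) : Prop :=
  ∀ (l : List V) (n : V), iterDelta l f n ∈ F l.length

/-- The map `τ` from `F_p^d` to `{0, …, p - 1}^d ⊆ ℤ^d`. -/
def tau {p d : ℕ} (x : Fin d → ZMod p) : Fin d → ℤ := fun i => ((x i).val : ℤ)

/-- The set `poly_p (Ω → G | Γ)` of the partially `p`-periodic polynomial sequences on `Ω`: the maps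
`f ∘ τ`, where `f` is a polynomial sequence with `f (n + p m)⁻¹ f (n) ∈ Γ` for all
`n ∈ τ (Ω) + p ℤ^d` and all `m ∈ ℤ^d`. -/
def polyP {p d s : ℕ} (X : FilteredNilmanifold s) (Ω : Set (Fin d → ZMod p)) :
    Set ((Fin d → ZMod p) → X.G) :=
  {g | ∃ f : (Fin d → ℤ) → X.G, IsPolynomial X.F f ∧ (∀ x, g x = f (tau x)) ∧
    ∀ n : Fin d → ℤ, (∃ x ∈ Ω, ∃ k : Fin d → ℤ, n = tau x + (p : ℤ) • k) →
      ∀ m : Fin d → ℤ, (f (n + (p : ℤ) • m))⁻¹ * f n ∈ X.Γ}

/-- The zero set `V (M)` of the quadratic form `M (n) = (n A) · n + n · u + v` on `F_p^d`. -/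
def zeroSet {p d : ℕ} (A : Matrix (Fin d) (Fin d) (ZMod p)) (u : Fin d → ZMod p) (v : ZMod p) :
    Set (Fin d → ZMod p) :=
  {n | Matrix.vecMul n A ⬝ᵥ n + n ⬝ᵥ u + v = 0}

end Pool.Agent.N853.PQ
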