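import Pool.Agent.N853.PQ.Main

set_option autoImplicit false

namespace Pool.Agent.N853.PQ

variable {r : ℕ}

/-- The matrix of the form `2 n_0 n_1 + n_2 ^ 2 + ⋯`. -/
def swapMat (p r : ℕ) : Matrix (Fin (r + 2)) (Fin (r + 2)) (ZMod p) :=
  Matrix.of fun i j => if j = Equiv.swap 0 1 i then 1 else 0

theorem swapMat_symm (p : ℕ) : (swapMat p r).IsSymm := by
  ext i j
  simp only [swapMat, Matrix.transpose_apply, Matrix.of_apply]
  congr 1
  refine propext ⟨fun h => ?_, fun h => ?_⟩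
  · rw [h]; simp
  · rw [h]; simp

theorem swapMat_mul (p : ℕ) : swapMat p r * swapMat p r = 1 := by
  ext i j
  rw [Matrix.mul_apply]
  simp only [swapMat, Matrix.of_apply, ite_mul, one_mul, zero_mul]
  rw [Finset.sum_ite_eq']
  simp only [Finset.mem_univ, if_true, Equiv.swap_apply_self, Matrix.one_apply, eq_comm]

theorem swapMat_rank (p : ℕ) [Fact p.Prime] : (swapMat p r).rank = r + 2 := by
  have h : IsUnit (swapMat p r) := IsUnit.of_mul_eq_one _ (swapMat_mul p)
  rw [Matrix.rank_of_isUnit _ h, Fintype.card_fin]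

theorem swapMat_form (p : ℕ) (x : Fin (r + 2) → ZMod p) :
    Matrix.vecMul x (swapMat p r) ⬝ᵥ x = 2 * x 0 * x 1 + ∑ j : Fin r, x j.succ.succ ^ 2 := by
  have h1 : ∀ j, Matrix.vecMul x (swapMat p r) j = x (Equiv.swap 0 1 j) := by
    intro j
    simp only [Matrix.vecMul, dotProduct, swapMat, Matrix.of_apply, mul_ite, mul_one, mul_zero]
    rw [Finset.sum_eq_single (Equiv.swap 0 1 j)]
    · simp
    · intro b _ hb
      rw [if_neg]
      intro h
      apply hb
      rw [h]; simp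
    · intro h; exact absurd (Finset.mem_univ _) h
  simp only [dotProduct, h1]
  rw [Fin.sum_univ_succ, Fin.sum_univ_succ]
  have h01 : (Fin.succ (0 : Fin (r + 1))) = 1 := rfl
  rw [h01, Equiv.swap_apply_left, Equiv.swap_apply_right]
  have h2 : ∀ j : Fin r, Equiv.swap (0 : Fin (r + 2)) 1 j.succ.succ = j.succ.succ := by
    intro j
    apply Equiv.swap_apply_of_ne_of_ne
    · exact Fin.succ_ne_zero _
    · intro h
      have h' : j.succ.succ = (Fin.succ 0 : Fin (r + 2)) := h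
      exact Fin.succ_ne_zero j (Fin.succ_injective _ h')
  simp only [h2]
  rw [← add_assoc]
  congr 1
  · ring
  · refine Finset.sum_congr rfl fun j _ => by ring

theorem tau_cast (p : ℕ) [NeZero p] (x : Fin (r + 2) → ZMod p) (i : Fin (r + 2)) :
    ((tau x i : ℤ) : ZMod p) = x i := by
  simp [tau]

theorem dvd_MZ (p : ℕ) [NeZero p] (x : Fin (r + 2) → ZMod p) (hx : x ∈ zeroSet (swapMat p r) 0 0)
    (k : Fin (r + 2) → ℤ) : (p : ℤ) ∣ MZ (tau x + (p : ℤ) • k) := by
  rw [← ZMod.intCast_zmod_eq_zero_iff_dvd, MZ]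
  have h : Matrix.vecMul x (swapMat p r) ⬝ᵥ x + x ⬝ᵥ 0 + 0 = 0 := hx
  rw [swapMat_form, dotProduct_zero, add_zero, add_zero] at h
  simp only [Pi.add_apply, Pi.smul_apply, smul_eq_mul]
  push_cast
  simp only [tau_cast, ZMod.natCast_self, zero_mul, add_zero]
  exact h

theorem tau_single (p : ℕ) (i : Fin (r + 2)) (a : ℕ) (ha : a < p) :
    tau (p := p) (Pi.single i (a : ZMod p)) = Pi.single i (a : ℤ) := by
  funext j
  rw [tau]
  by_cases h : j = i
  · subst h
    rw [Pi.single_eq_same, Pi.single_eq_same, ZMod.val_natCast, Nat.mod_eq_of_lt ha]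
  · rw [Pi.single_eq_of_ne h, Pi.single_eq_of_ne h, ZMod.val_zero]
    rfl

theorem mem_zeroSet_single (p : ℕ) (i : Fin (r + 2)) (hi : i = 0 ∨ i = 1) (a : ZMod p) :
    (Pi.single i a : Fin (r + 2) → ZMod p) ∈ zeroSet (swapMat p r) 0 0 := by
  have h01 : (0 : Fin (r + 2)) ≠ 1 := by
    intro h
    have h' : (0 : Fin (r + 2)) = Fin.succ 0 := h
    exact Fin.succ_ne_zero _ h'.symm
  have hss : ∀ j : Fin r, j.succ.succ ≠ i := by
    intro j h
    rcases hi with hi | hi
    · rw [hi] at h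
      exact Fin.succ_ne_zero _ h
    · rw [hi] at h
      have h' : j.succ.succ = (Fin.succ 0 : Fin (r + 2)) := h
      exact Fin.succ_ne_zero j (Fin.succ_injective _ h')
  show Matrix.vecMul _ (swapMat p r) ⬝ᵥ _ + _ ⬝ᵥ 0 + 0 = 0
  rw [swapMat_form, dotProduct_zero, add_zero, add_zero]
  have e : ∑ j : Fin r, (Pi.single i a : Fin (r + 2) → ZMod p) j.succ.succ ^ 2 = 0 := by
    refine Finset.sum_eq_zero fun j _ => ?_
    rw [Pi.single_eq_of_ne (hss j)]
    ring
  rw [e, add_zero]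
  rcases hi with hi | hi
  · rw [hi, Pi.single_eq_of_ne (Ne.symm h01)]; ring
  · rw [hi, Pi.single_eq_of_ne h01]; ring

theorem main (r s p : ℕ) (hs : 3 ≤ s) (hp : p.Prime) (hp2 : p ≠ 2) :
    ∃ A : Matrix (Fin (r + 2)) (Fin (r + 2)) (ZMod p), A.IsSymm ∧ A.rank = r + 2 ∧
      ∃ X : FilteredNilmanifold s, ∃ g ∈ polyP X (zeroSet A 0 0),
        ¬ ∃ g' ∈ polyP (p := p) (d := r + 2) X Set.univ, ∀ n ∈ zeroSet A 0 0,
          (QuotientGroup.mk (g n) : X.G ⧸ X.Γ) = QuotientGroup.mk (g' n) := by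
  have : Fact p.Prime := ⟨hp⟩
  have : NeZero p := ⟨hp.ne_zero⟩
  have hp3 : 3 ≤ p := by
    have := hp.two_le
    omega
  refine ⟨swapMat p r, swapMat_symm p, swapMat_rank p, heisNil (r + 1) s hs,
    fun x => seq p (tau x), ⟨seq p, seq_poly p, fun _ => rfl, ?_⟩, ?_⟩
  · rintro n ⟨x, hx, k, rfl⟩ m
    exact seq_periodic p hp.pos _ m (dvd_MZ p x hx k)
  · rintro ⟨g', ⟨f₀, hf₀, hg', hper₀⟩, heq₀⟩
    obtain ⟨f', hf0⟩ : ∃ f' : (Fin (r + 2) → ℤ) → Heis (r + 1), f' = f₀ := ⟨f₀, rfl⟩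
    have hf' : IsPolynomial (filt (r + 1)) f' := by rw [hf0]; exact hf₀
    have hper : ∀ n : Fin (r + 2) → ℤ, (∃ x ∈ (Set.univ : Set (Fin (r + 2) → ZMod p)),
        ∃ k : Fin (r + 2) → ℤ, n = tau x + (p : ℤ) • k) →
        ∀ m : Fin (r + 2) → ℤ, (f' (n + (p : ℤ) • m))⁻¹ * f' n ∈ lattice (r + 1) := by
      rw [hf0]; exact hper₀
    have heq : ∀ x ∈ zeroSet (swapMat p r) 0 0, (seq p (tau x))⁻¹ * f' (tau x) ∈
        lattice (r + 1) := by
      intro x hx
      have h := QuotientGroup.eq.1 (heq₀ x hx)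
      rw [hg', ← hf0] at h
      exact h
    have hval : ∀ (i : Fin (r + 2)) (hi : i = 0 ∨ i = 1) (a : ℕ) (ha : a < p),
        (seq p (Pi.single i (a : ℤ)))⁻¹ * f' (Pi.single i (a : ℤ)) ∈ lattice (r + 1) := by
      intro i hi a ha
      have h := heq _ (mem_zeroSet_single p i hi (a : ZMod p))
      rw [tau_single p i a ha] at h
      exact h
    refine no_ext p hp3 f' hf' ?_ ?_ ?_ ?_ ?_
    · intro n m
      refine hper n ⟨fun i => ((n i : ℤ) : ZMod p), Set.mem_univ _, fun i => n i / p, ?_⟩ m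
      funext i
      simp only [tau, Pi.add_apply, Pi.smul_apply, smul_eq_mul]
      rw [ZMod.val_intCast]
      exact (Int.emod_add_mul_ediv (n i) p).symm
    · have := hval 0 (Or.inl rfl) 0 (by omega)
      simpa using this
    · have := hval 0 (Or.inl rfl) 1 (by omega)
      simpa using this
    · have := hval 0 (Or.inl rfl) 2 (by omega)
      have e : (Pi.single 0 1 + Pi.single 0 1 : Fin (r + 2) → ℤ) = Pi.single 0 ((2 : ℕ) : ℤ) := by
        rw [← Pi.single_add]
        norm_num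
      rw [e]
      exact this
    · have := hval 1 (Or.inr rfl) 1 (by omega)
      simpa using this

end Pool.Agent.N853.PQ
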