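import Pool.Agent.N853.PQ.Defs

set_option autoImplicit false

namespace Pool.Agent.N853.PQ

open scoped Manifold ContDiff commutatorElement

/-- The model space of the Heisenberg group. -/
abbrev HM (k : ℕ) : Type := (Fin k → ℝ) × (Fin k → ℝ) × ℝ

/-- The Heisenberg group of dimension `2 k + 1`. -/
def Heis (k : ℕ) : Type := (Fin k → ℝ) × (Fin k → ℝ) × ℝ

variable {k : ℕ}

/-- constructor -/
def mk (x y : Fin k → ℝ) (z : ℝ) : Heis k := (x, y, z)

instance : TopologicalSpace (Heis k) := inferInstanceAs (TopologicalSpace (HM k))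
instance : T2Space (Heis k) := inferInstanceAs (T2Space (HM k))
instance : SecondCountableTopology (Heis k) := inferInstanceAs (SecondCountableTopology (HM k))
instance : ChartedSpace (HM k) (Heis k) := inferInstanceAs (ChartedSpace (HM k) (HM k))
instance : ContractibleSpace (HM k) := RealTopologicalVectorSpace.contractibleSpace
instance : ContractibleSpace (Heis k) := inferInstanceAs (ContractibleSpace (HM k))
instance : SimplyConnectedSpace (Heis k) := SimplyConnectedSpace.ofContractible _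
instance : ConnectedSpace (Heis k) := inferInstanceAs (ConnectedSpace (HM k))

theorem Heis.ext' {a b : Heis k} (h1 : a.1 = b.1) (h2 : a.2.1 = b.2.1) (h3 : a.2.2 = b.2.2) :
    a = b := Prod.ext h1 (Prod.ext h2 h3)

noncomputable instance : Group (Heis k) where
  mul a b := (a.1 + b.1, a.2.1 + b.2.1, a.2.2 + b.2.2 + a.1 ⬝ᵥ b.2.1)
  one := (0, 0, 0)
  inv a := (-a.1, -a.2.1, -a.2.2 + a.1 ⬝ᵥ a.2.1)
  mul_assoc a b c := by
    refine Heis.ext' (add_assoc _ _ _) (add_assoc _ _ _) ?_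
    show a.2.2 + b.2.2 + a.1 ⬝ᵥ b.2.1 + c.2.2 + (a.1 + b.1) ⬝ᵥ c.2.1 =
      a.2.2 + (b.2.2 + c.2.2 + b.1 ⬝ᵥ c.2.1) + a.1 ⬝ᵥ (b.2.1 + c.2.1)
    rw [add_dotProduct, dotProduct_add]
    ring
  one_mul a := by
    refine Heis.ext' (zero_add _) (zero_add _) ?_
    show 0 + a.2.2 + (0 : Fin k → ℝ) ⬝ᵥ a.2.1 = a.2.2
    rw [zero_dotProduct]; ring
  mul_one a := by
    refine Heis.ext' (add_zero _) (add_zero _) ?_
    show a.2.2 + 0 + a.1 ⬝ᵥ (0 : Fin k → ℝ) = a.2.2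
    rw [dotProduct_zero]; ring
  inv_mul_cancel a := by
    refine Heis.ext' (neg_add_cancel _) (neg_add_cancel _) ?_
    show -a.2.2 + a.1 ⬝ᵥ a.2.1 + a.2.2 + (-a.1) ⬝ᵥ a.2.1 = 0
    rw [neg_dotProduct]; ring

theorem mul_fst (a b : Heis k) : (a * b).1 = a.1 + b.1 := rfl
theorem mul_snd (a b : Heis k) : (a * b).2.1 = a.2.1 + b.2.1 := rfl
theorem mul_thd (a b : Heis k) : (a * b).2.2 = a.2.2 + b.2.2 + a.1 ⬝ᵥ b.2.1 := rfl
theorem inv_fst (a : Heis k) : (a⁻¹).1 = -a.1 := rfl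
theorem inv_snd (a : Heis k) : (a⁻¹).2.1 = -a.2.1 := rfl
theorem inv_thd (a : Heis k) : (a⁻¹).2.2 = -a.2.2 + a.1 ⬝ᵥ a.2.1 := rfl
theorem one_fst : (1 : Heis k).1 = 0 := rfl
theorem one_snd : (1 : Heis k).2.1 = 0 := rfl
theorem one_thd : (1 : Heis k).2.2 = 0 := rfl

theorem contDiff_mul' (n : WithTop ℕ∞) :
    ContDiff ℝ n (fun q : HM k × HM k => ((q.1.1 + q.2.1, q.1.2.1 + q.2.2.1,
      q.1.2.2 + q.2.2.2 + ∑ i, q.1.1 i * q.2.2.1 i) : HM k)) := by
  fun_prop

theorem contDiff_inv' (n : WithTop ℕ∞) :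
    ContDiff ℝ n (fun q : HM k => ((-q.1, -q.2.1, -q.2.2 + ∑ i, q.1 i * q.2.1 i) : HM k)) := by
  fun_prop

instance : IsManifold 𝓘(ℝ, HM k) ∞ (Heis k) := inferInstanceAs (IsManifold 𝓘(ℝ, HM k) ∞ (HM k))

theorem contMDiff_mul' : ContMDiff (𝓘(ℝ, HM k).prod 𝓘(ℝ, HM k)) 𝓘(ℝ, HM k) ∞
    (fun q : Heis k × Heis k => q.1 * q.2) := by
  have h := (contDiff_mul' (k := k) ∞).contMDiff
  rw [modelWithCornersSelf_prod, ← chartedSpaceSelf_prod] at h
  exact h

theorem contMDiff_inv' : ContMDiff 𝓘(ℝ, HM k) 𝓘(ℝ, HM k) ∞ (fun q : Heis k => q⁻¹) :=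
  (contDiff_inv' (k := k) ∞).contMDiff

instance : ContMDiffMul 𝓘(ℝ, HM k) ∞ (Heis k) := { contMDiff_mul := contMDiff_mul' }

instance : LieGroup 𝓘(ℝ, HM k) ∞ (Heis k) := { contMDiff_inv := contMDiff_inv' }

instance : IsTopologicalGroup (Heis k) := topologicalGroup_of_lieGroup 𝓘(ℝ, HM k) ∞

/-- the projection to the abelian quotient -/
noncomputable def proj : Heis k →* Multiplicative ((Fin k → ℝ) × (Fin k → ℝ)) where
  toFun a := Multiplicative.ofAdd (a.1, a.2.1)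
  map_one' := rfl
  map_mul' _ _ := rfl

instance : Group.IsNilpotent (Heis k) := by
  refine Subgroup.isNilpotent_of_ker_le_center (proj (k := k)) ?_
  intro a ha
  have h : ((a.1, a.2.1) : (Fin k → ℝ) × (Fin k → ℝ)) = 0 := ha
  have h1 : a.1 = 0 := congrArg Prod.fst h
  have h2 : a.2.1 = 0 := congrArg Prod.snd h
  rw [Subgroup.mem_center_iff]
  intro b
  refine Heis.ext' ?_ ?_ ?_
  · rw [mul_fst, mul_fst, add_comm]
  · rw [mul_snd, mul_snd, add_comm]
  · rw [mul_thd, mul_thd, h1, h2, dotProduct_zero, zero_dotProduct, add_comm a.2.2]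

/-- the filtration of degree three -/
def filt (k i : ℕ) : Subgroup (Heis k) where
  carrier := {a | (2 ≤ i → a.1 = 0) ∧ (3 ≤ i → a.2.1 = 0) ∧ (4 ≤ i → a.2.2 = 0)}
  mul_mem' {a b} ha hb := by
    refine ⟨fun h => ?_, fun h => ?_, fun h => ?_⟩
    · rw [mul_fst, ha.1 h, hb.1 h, add_zero]
    · rw [mul_snd, ha.2.1 h, hb.2.1 h, add_zero]
    · rw [mul_thd, ha.2.2 h, hb.2.2 h, ha.1 (by omega), zero_dotProduct, add_zero, add_zero]
  one_mem' := ⟨fun _ => rfl, fun _ => rfl, fun _ => rfl⟩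
  inv_mem' {a} ha := by
    refine ⟨fun h => ?_, fun h => ?_, fun h => ?_⟩
    · rw [inv_fst, ha.1 h, neg_zero]
    · rw [inv_snd, ha.2.1 h, neg_zero]
    · rw [inv_thd, ha.2.2 h, ha.1 (by omega), zero_dotProduct, neg_zero, add_zero]

theorem mem_filt {i : ℕ} {a : Heis k} : a ∈ filt k i ↔
    (2 ≤ i → a.1 = 0) ∧ (3 ≤ i → a.2.1 = 0) ∧ (4 ≤ i → a.2.2 = 0) := Iff.rfl

/-- the lattice of integral points -/
def lattice (k : ℕ) : Subgroup (Heis k) where
  carrier := {a | (∃ x : Fin k → ℤ, ∀ i, a.1 i = x i) ∧ (∃ y : Fin k → ℤ, ∀ i, a.2.1 i = y i) ∧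
    ∃ z : ℤ, a.2.2 = z}
  mul_mem' {a b} := by
    rintro ⟨⟨x, hx⟩, ⟨y, hy⟩, ⟨z, hz⟩⟩ ⟨⟨x', hx'⟩, ⟨y', hy'⟩, ⟨z', hz'⟩⟩
    refine ⟨⟨x + x', fun i => ?_⟩, ⟨y + y', fun i => ?_⟩, ⟨z + z' + ∑ i, x i * y' i, ?_⟩⟩
    · rw [mul_fst, Pi.add_apply, hx, hx', Pi.add_apply]; push_cast; rfl
    · rw [mul_snd, Pi.add_apply, hy, hy', Pi.add_apply]; push_cast; rfl
    · rw [mul_thd, hz, hz']; push_cast
      simp only [dotProduct, hx, hy']
  one_mem' := ⟨⟨0, fun _ => by simp [one_fst]⟩, ⟨0, fun _ => by simp [one_snd]⟩,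
    ⟨0, by simp [one_thd]⟩⟩
  inv_mem' {a} := by
    rintro ⟨⟨x, hx⟩, ⟨y, hy⟩, ⟨z, hz⟩⟩
    refine ⟨⟨-x, fun i => ?_⟩, ⟨-y, fun i => ?_⟩, ⟨-z + ∑ i, x i * y i, ?_⟩⟩
    · rw [inv_fst, Pi.neg_apply, hx, Pi.neg_apply]; push_cast; rfl
    · rw [inv_snd, Pi.neg_apply, hy, Pi.neg_apply]; push_cast; rfl
    · rw [inv_thd, hz]; push_cast
      simp only [dotProduct, hx, hy]

theorem mem_lattice {a : Heis k} : a ∈ lattice k ↔ (∃ x : Fin k → ℤ, ∀ i, a.1 i = x i) ∧
    (∃ y : Fin k → ℤ, ∀ i, a.2.1 i = y i) ∧ ∃ z : ℤ, a.2.2 = z := Iff.rfl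

theorem continuous_c1 : Continuous (fun a : Heis k => a.1) := continuous_fst
theorem continuous_c2 : Continuous (fun a : Heis k => a.2.1) := continuous_snd.fst
theorem continuous_c3 : Continuous (fun a : Heis k => a.2.2) := continuous_snd.snd

theorem isClosed_filt (i : ℕ) : IsClosed (filt k i : Set (Heis k)) := by
  have : (filt k i : Set (Heis k)) = {a | 2 ≤ i → a.1 = 0} ∩ ({a | 3 ≤ i → a.2.1 = 0} ∩
      {a | 4 ≤ i → a.2.2 = 0}) := rfl
  rw [this]
  refine IsClosed.inter ?_ (IsClosed.inter ?_ ?_)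
  · by_cases h : 2 ≤ i
    · simp only [h, true_imp_iff]
      exact isClosed_eq continuous_c1 continuous_const
    · simp [h]
  · by_cases h : 3 ≤ i
    · simp only [h, true_imp_iff]
      exact isClosed_eq continuous_c2 continuous_const
    · simp [h]
  · by_cases h : 4 ≤ i
    · simp only [h, true_imp_iff]
      exact isClosed_eq continuous_c3 continuous_const
    · simp [h]

theorem isConnected_filt (i : ℕ) : IsConnected (filt k i : Set (Heis k)) := by
  refine ⟨⟨1, Subgroup.one_mem _⟩, ?_⟩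
  have h : Convex ℝ {a : HM k | (2 ≤ i → a.1 = 0) ∧ (3 ≤ i → a.2.1 = 0) ∧ (4 ≤ i → a.2.2 = 0)} := by
    intro a ha b hb s t _ _ _
    refine ⟨fun h => ?_, fun h => ?_, fun h => ?_⟩
    · show s • a.1 + t • b.1 = 0
      rw [ha.1 h, hb.1 h, smul_zero, smul_zero, add_zero]
    · show s • a.2.1 + t • b.2.1 = 0
      rw [ha.2.1 h, hb.2.1 h, smul_zero, smul_zero, add_zero]
    · show s • a.2.2 + t • b.2.2 = 0
      rw [ha.2.2 h, hb.2.2 h, smul_zero, smul_zero, add_zero]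
  exact h.isPreconnected

/-- the unit cube -/
def cube (k : ℕ) : Set (Heis k) :=
  {a | (∀ i, a.1 i ∈ Set.Icc (0 : ℝ) 1) ∧ (∀ i, a.2.1 i ∈ Set.Icc (0 : ℝ) 1) ∧
    a.2.2 ∈ Set.Icc (0 : ℝ) 1}

theorem isCompact_cube : IsCompact (cube k) := by
  have h : IsCompact ((Set.Icc (0 : Fin k → ℝ) 1) ×ˢ ((Set.Icc (0 : Fin k → ℝ) 1) ×ˢ
      (Set.Icc (0 : ℝ) 1)) : Set (HM k)) := isCompact_Icc.prod (isCompact_Icc.prod isCompact_Icc)
  have e : (cube k : Set (HM k)) = ((Set.Icc (0 : Fin k → ℝ) 1) ×ˢ ((Set.Icc (0 : Fin k → ℝ) 1) ×ˢ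
      (Set.Icc (0 : ℝ) 1)) : Set (HM k)) := by
    ext a
    constructor
    · rintro ⟨h1, h2, h3⟩
      exact ⟨⟨fun i => (h1 i).1, fun i => (h1 i).2⟩, ⟨fun i => (h2 i).1, fun i => (h2 i).2⟩, h3⟩
    · rintro ⟨h1, h2, h3⟩
      exact ⟨fun i => ⟨h1.1 i, h1.2 i⟩, fun i => ⟨h2.1 i, h2.2 i⟩, h3⟩
  have h2 : IsCompact (cube k : Set (HM k)) := by rw [e]; exact h
  exact h2

theorem to_cube (a : Heis k) : ∃ γ ∈ lattice k, a * γ ∈ cube k ∧ ∀ i, a ∈ filt k i → γ ∈ filt k i := by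
  let b : Fin k → ℝ := fun i => -((⌊a.2.1 i⌋ : ℤ) : ℝ)
  let γ : Heis k := mk (fun i => -((⌊a.1 i⌋ : ℤ) : ℝ)) b (-((⌊a.2.2 + a.1 ⬝ᵥ b⌋ : ℤ) : ℝ))
  have g1 : γ.1 = fun i => -((⌊a.1 i⌋ : ℤ) : ℝ) := rfl
  have g2 : γ.2.1 = b := rfl
  have g3 : γ.2.2 = -((⌊a.2.2 + a.1 ⬝ᵥ b⌋ : ℤ) : ℝ) := rfl
  refine ⟨γ, ⟨⟨fun i => -⌊a.1 i⌋, fun i => ?_⟩, ⟨fun i => -⌊a.2.1 i⌋, fun i => ?_⟩,
    ⟨-⌊a.2.2 + a.1 ⬝ᵥ b⌋, ?_⟩⟩, ⟨fun i => ?_, fun i => ?_, ?_⟩, fun i hi => ⟨fun h => ?_, fun h => ?_,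
    fun h => ?_⟩⟩
  · rw [g1]; push_cast; rfl
  · rw [g2]; simp only [b]; push_cast; rfl
  · rw [g3]; push_cast; rfl
  · rw [mul_fst, Pi.add_apply, g1]
    constructor
    · linarith [Int.floor_le (a.1 i)]
    · linarith [Int.lt_floor_add_one (a.1 i)]
  · rw [mul_snd, Pi.add_apply, g2]
    simp only [b]
    constructor
    · linarith [Int.floor_le (a.2.1 i)]
    · linarith [Int.lt_floor_add_one (a.2.1 i)]
  · rw [mul_thd, g2, g3]
    constructor
    · linarith [Int.floor_le (a.2.2 + a.1 ⬝ᵥ b)]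
    · linarith [Int.lt_floor_add_one (a.2.2 + a.1 ⬝ᵥ b)]
  · rw [g1, hi.1 h]; funext j; simp
  · rw [g2]; funext j; simp only [b]; rw [hi.2.1 h]; simp
  · rw [g3, hi.2.2 h, hi.1 (by omega), zero_dotProduct]; simp

theorem compact_quot : CompactSpace (Heis k ⧸ lattice k) := by
  constructor
  have h : (Set.univ : Set (Heis k ⧸ lattice k)) = (fun a : Heis k => (a : Heis k ⧸ lattice k)) '' cube k := by
    refine (Set.eq_univ_of_forall fun q => ?_).symm
    obtain ⟨a, rfl⟩ := QuotientGroup.mk_surjective q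
    obtain ⟨γ, hγ, hc, -⟩ := to_cube a
    refine ⟨a * γ, hc, ?_⟩
    refine (QuotientGroup.eq.2 ?_)
    have e : (a * γ)⁻¹ * a = γ⁻¹ := by group
    rw [e]
    exact (lattice k).inv_mem hγ
  rw [h]
  exact isCompact_cube.image QuotientGroup.continuous_mk

theorem compact_quot_filt (i : ℕ) : CompactSpace (filt k i ⧸ (lattice k).subgroupOf (filt k i)) := by
  have hK : IsCompact {a : filt k i | (a : Heis k) ∈ cube k} := by
    rw [Subtype.isCompact_iff]
    have : (Subtype.val '' {a : filt k i | (a : Heis k) ∈ cube k}) = (filt k i : Set (Heis k)) ∩ cube k := by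
      ext a
      simp only [Set.mem_image, Set.mem_ofPred_eq, Set.mem_inter_iff, SetLike.mem_coe, Subtype.exists]
      constructor
      · rintro ⟨b, hb, h, rfl⟩; exact ⟨hb, h⟩
      · rintro ⟨h1, h2⟩; exact ⟨a, h1, h2, rfl⟩
    rw [this]
    exact isCompact_cube.inter_left (isClosed_filt i)
  constructor
  have h : (Set.univ : Set (filt k i ⧸ (lattice k).subgroupOf (filt k i))) =
      (fun a : filt k i => (a : filt k i ⧸ (lattice k).subgroupOf (filt k i))) ''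
        {a : filt k i | (a : Heis k) ∈ cube k} := by
    refine (Set.eq_univ_of_forall fun q => ?_).symm
    obtain ⟨a, rfl⟩ := QuotientGroup.mk_surjective q
    obtain ⟨γ, hγ, hc, hf⟩ := to_cube (a : Heis k)
    refine ⟨a * ⟨γ, hf i a.2⟩, hc, ?_⟩
    refine (QuotientGroup.eq.2 ?_)
    have e : (a * ⟨γ, hf i a.2⟩)⁻¹ * a = (⟨γ, hf i a.2⟩ : filt k i)⁻¹ := by group
    rw [e]
    refine Subgroup.inv_mem _ ?_
    exact Subgroup.mem_subgroupOf.2 hγ
  rw [h]
  exact hK.image QuotientGroup.continuous_mk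

theorem discrete_lattice : DiscreteTopology (lattice k) := by
  refine discreteTopology_of_isOpen_singleton_one ?_
  have hopen : IsOpen {a : Heis k | (∀ i, |a.1 i| < 1) ∧ (∀ i, |a.2.1 i| < 1) ∧ |a.2.2| < 1} := by
    have e : {a : Heis k | (∀ i, |a.1 i| < 1) ∧ (∀ i, |a.2.1 i| < 1) ∧ |a.2.2| < 1} =
        (⋂ i, {a : Heis k | |a.1 i| < 1}) ∩ ((⋂ i, {a : Heis k | |a.2.1 i| < 1}) ∩
          {a : Heis k | |a.2.2| < 1}) := by
      ext a; simp
    rw [e]
    refine IsOpen.inter (isOpen_iInter_of_finite fun i => ?_)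
      (IsOpen.inter (isOpen_iInter_of_finite fun i => ?_) ?_)
    · exact isOpen_lt (((continuous_apply i).comp continuous_c1).abs) continuous_const
    · exact isOpen_lt (((continuous_apply i).comp continuous_c2).abs) continuous_const
    · exact isOpen_lt (continuous_c3.abs) continuous_const
  have h2 : ({1} : Set (lattice k)) = Subtype.val ⁻¹'
      {a : Heis k | (∀ i, |a.1 i| < 1) ∧ (∀ i, |a.2.1 i| < 1) ∧ |a.2.2| < 1} := by
    ext ⟨a, ⟨x, hx⟩, ⟨y, hy⟩, ⟨z, hz⟩⟩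
    simp only [Set.mem_singleton_iff, Set.mem_preimage, Set.mem_ofPred_eq]
    have key : ∀ m : ℤ, |(m : ℝ)| < 1 → (m : ℝ) = 0 := by
      intro m hm
      have : |m| < 1 := by exact_mod_cast hm
      have := Int.abs_lt_one_iff.1 this
      exact_mod_cast this
    constructor
    · intro h
      have h' : a = 1 := congrArg Subtype.val h
      subst h'
      refine ⟨fun i => ?_, fun i => ?_, ?_⟩
      · rw [one_fst]; simp
      · rw [one_snd]; simp
      · rw [one_thd]; simp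
    · rintro ⟨h1, h2, h3⟩
      refine Subtype.ext (Heis.ext' ?_ ?_ ?_)
      · funext i
        have := h1 i
        rw [hx] at this
        show a.1 i = 0
        rw [hx]
        exact key _ this
      · funext i
        have := h2 i
        rw [hy] at this
        show a.2.1 i = 0
        rw [hy]
        exact key _ this
      · rw [hz] at h3
        show a.2.2 = 0
        rw [hz]
        exact key _ h3
  rw [h2]
  exact hopen.preimage continuous_subtype_val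

theorem filt_comm (i j : ℕ) : ⁅filt k i, filt k j⁆ ≤ filt k (i + j) := by
  rw [Subgroup.commutator_le]
  intro a ha b hb
  have e1 : ⁅a, b⁆.1 = 0 := by
    rw [commutatorElement_def]
    simp only [mul_fst, inv_fst]
    abel
  have e2 : ⁅a, b⁆.2.1 = 0 := by
    rw [commutatorElement_def]
    simp only [mul_snd, inv_snd]
    abel
  have e3 : ⁅a, b⁆.2.2 = a.1 ⬝ᵥ b.2.1 - b.1 ⬝ᵥ a.2.1 := by
    rw [commutatorElement_def]
    simp only [mul_thd, inv_thd, mul_fst, inv_fst, inv_snd, mul_snd, add_dotProduct,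
      dotProduct_add, neg_dotProduct, dotProduct_neg]
    ring
  refine ⟨fun _ => e1, fun _ => e2, fun h => ?_⟩
  rw [e3]
  by_cases h1 : 2 ≤ i
  · by_cases h2 : 2 ≤ j
    · rw [ha.1 h1, hb.1 h2]; simp
    · have h3 : 3 ≤ i := by omega
      rw [ha.1 h1, ha.2.1 h3]; simp
  · have h3 : 3 ≤ j := by omega
    rw [hb.1 (by omega), hb.2.1 h3]; simp

/-- The Heisenberg nilmanifold with a filtration of degree three, as an `s`-step filtered
nilmanifold, `s ≥ 3`. -/
noncomputable def heisNil (k s : ℕ) (hs : 3 ≤ s) : FilteredNilmanifold s where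
  E := HM k
  G := Heis k
  Γ := lattice k
  discrete := discrete_lattice
  cocompact := compact_quot
  F := filt k
  isClosed := isClosed_filt
  isConnected := isConnected_filt
  rational := compact_quot_filt
  zero := by
    rw [eq_top_iff]
    intro a _
    exact ⟨fun h => absurd h (by norm_num), fun h => absurd h (by norm_num),
      fun h => absurd h (by norm_num)⟩
  one := by
    rw [eq_top_iff]
    intro a _
    exact ⟨fun h => absurd h (by norm_num), fun h => absurd h (by norm_num),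
      fun h => absurd h (by norm_num)⟩
  antitone := fun i a ha => ⟨fun h => ha.1 (by omega), fun h => ha.2.1 (by omega),
    fun h => ha.2.2 (by omega)⟩
  commutator := filt_comm
  last := by
    rw [eq_bot_iff]
    intro a ha
    rw [Subgroup.mem_bot]
    exact Heis.ext' (ha.1 (by omega)) (ha.2.1 (by omega)) (ha.2.2 (by omega))

end Pool.Agent.N853.PQ
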