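import Pool.Agent.N853.PQ.Heis

set_option autoImplicit false

namespace Pool.Agent.N853.PQ

variable {k : ℕ}

section additive

variable {V A : Type} [AddCommGroup V] [AddCommGroup A]

/-- additive differences -/
def aIter : List V → (V → A) → V → A
  | [], f => f
  | h :: l, f => aIter l (fun n => f (n + h) - f n)

theorem aIter_zero (l : List V) (n : V) : aIter l (fun _ : V => (0 : A)) n = 0 := by
  induction l generalizing n with
  | nil => rfl
  | cons h l ih =>
    simp only [aIter, sub_self]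
    exact ih n

theorem aIter_append (l l' : List V) (f : V → A) (n : V) :
    aIter (l ++ l') f n = aIter l' (aIter l f) n := by
  induction l generalizing f n with
  | nil => rfl
  | cons h l ih => simp only [List.cons_append, aIter]; exact ih _ n

theorem aIter_sub (l : List V) (f g : V → A) (n : V) :
    aIter l (fun n => f n - g n) n = aIter l f n - aIter l g n := by
  induction l generalizing f g n with
  | nil => rfl
  | cons h l ih =>
    simp only [aIter]
    rw [← ih]
    congr 1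
    funext m
    abel

theorem aIter_sum {ι : Type} (s : Finset ι) (l : List V) (f : ι → V → A) (n : V) :
    aIter l (fun n => ∑ i ∈ s, f i n) n = ∑ i ∈ s, aIter l (f i) n := by
  induction l generalizing f n with
  | nil => rfl
  | cons h l ih =>
    simp only [aIter]
    rw [← ih]
    congr 1
    funext m
    rw [Finset.sum_sub_distrib]

theorem aIter_apply {ι : Type} (l : List V) (f : V → ι → ℝ) (n : V) (i : ι) :
    aIter l f n i = aIter l (fun n => f n i) n := by
  induction l generalizing f n with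
  | nil => rfl
  | cons h l ih =>
    simp only [aIter]
    rw [ih]
    rfl

theorem aIter_mul (l : List V) (c : ℝ) (f : V → ℝ) (n : V) :
    aIter l (fun n => c * f n) n = c * aIter l f n := by
  induction l generalizing f n with
  | nil => rfl
  | cons h l ih =>
    simp only [aIter]
    rw [← ih]
    congr 1
    funext m
    ring

theorem aIter_dot (l : List V) (c : Fin k → ℝ) (f : V → Fin k → ℝ) (n : V) :
    aIter l (fun n => c ⬝ᵥ f n) n = c ⬝ᵥ aIter l f n := by
  simp only [dotProduct]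
  rw [aIter_sum]
  refine Finset.sum_congr rfl fun i _ => ?_
  rw [aIter_mul, aIter_apply]

theorem aIter_two (a b : V) (f : V → A) (n : V) :
    aIter [a, b] f n = f (n + b + a) - f (n + b) - (f (n + a) - f n) := rfl

/-- functions with vanishing second differences are affine -/
theorem affine_smul {f : V → ℝ} (hf : ∀ a b n, aIter [a, b] f n = 0) (P : ℕ) (c n : V) :
    f (n + (P : ℤ) • c) - f n = P * (f (n + c) - f n) := by
  induction P with
  | zero => simp
  | succ P ih =>
    have h := hf c ((P : ℤ) • c) n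
    rw [aIter_two] at h
    have e : n + ((P + 1 : ℕ) : ℤ) • c = n + (P : ℤ) • c + c := by
      push_cast
      rw [add_smul, one_smul, add_assoc]
    rw [e]
    push_cast
    linarith

end additive

section iter

variable {V : Type} [AddCommGroup V]

theorem iter_fst (l : List V) (f : V → Heis k) (n : V) :
    (iterDelta l f n).1 = aIter l (fun n => (f n).1) n := by
  induction l generalizing f n with
  | nil => rfl
  | cons h l ih =>
    simp only [iterDelta, aIter]
    rw [ih]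
    congr 1

theorem iter_snd (l : List V) (f : V → Heis k) (n : V) :
    (iterDelta l f n).2.1 = aIter l (fun n => (f n).2.1) n := by
  induction l generalizing f n with
  | nil => rfl
  | cons h l ih =>
    simp only [iterDelta, aIter]
    rw [ih]
    congr 1

theorem delta_thd (h : V) (f : V → Heis k) (n : V) :
    (Delta h f n).2.2 = (f (n + h)).2.2 - (f n).2.2 - ((f (n + h)).1 - (f n).1) ⬝ᵥ (f n).2.1 := by
  rw [Delta, mul_thd, inv_thd, inv_snd, dotProduct_neg, sub_dotProduct]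
  ring

theorem iter_thd_const (l : List V) (f : V → Heis k) (c : Fin k → ℝ) (hf : ∀ n, (f n).1 = c)
    (n : V) : (iterDelta l f n).2.2 = aIter l (fun n => (f n).2.2) n := by
  induction l generalizing f c n with
  | nil => rfl
  | cons h l ih =>
    simp only [iterDelta, aIter]
    rw [ih _ 0 (fun m => by rw [Delta, mul_fst, inv_fst, hf, hf]; simp)]
    congr 1
    funext m
    rw [delta_thd, hf, hf, sub_self, zero_dotProduct, sub_zero]

theorem iter_thd (h : V) (l : List V) (f : V → Heis k)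
    (hf : ∀ a b n, aIter [a, b] (fun n => (f n).1) n = 0) (n : V) :
    (iterDelta (h :: l) f n).2.2 = aIter (h :: l) (fun n => (f n).2.2) n -
      ((f (0 + h)).1 - (f 0).1) ⬝ᵥ aIter l (fun n => (f n).2.1) n := by
  have hc : ∀ m, (f (m + h)).1 - (f m).1 = (f (0 + h)).1 - (f 0).1 := by
    intro m
    have := hf h m 0
    rw [aIter_two, zero_add] at this
    exact sub_eq_zero.1 this
  simp only [iterDelta]
  rw [iter_thd_const l (Delta h f) ((f (0 + h)).1 - (f 0).1)
    (fun m => by rw [Delta, mul_fst, inv_fst, ← sub_eq_add_neg, hc])]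
  rw [← aIter_dot]
  simp only [aIter]
  rw [← aIter_sub]
  congr 1
  funext m
  rw [delta_thd, hc]

/-- sufficient condition -/
theorem isPolynomial_of (f : V → Heis k)
    (hx : ∀ a b n, aIter [a, b] (fun n => (f n).1) n = 0)
    (hy : ∀ a b c n, aIter [a, b, c] (fun n => (f n).2.1) n = 0)
    (hz : ∀ a b c e n, aIter [a, b, c, e] (fun n => (f n).2.2) n = 0) :
    IsPolynomial (filt k) f := by
  intro l n
  refine ⟨fun h => ?_, fun h => ?_, fun h => ?_⟩
  · rw [iter_fst]
    match l, h with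
    | a :: b :: l', _ =>
      have e : a :: b :: l' = [a, b] ++ l' := rfl
      rw [e, aIter_append]
      rw [show aIter [a, b] (fun n => (f n).1) = fun _ => 0 from funext (hx a b)]
      exact aIter_zero _ _
  · rw [iter_snd]
    match l, h with
    | a :: b :: c :: l', _ =>
      have e : a :: b :: c :: l' = [a, b, c] ++ l' := rfl
      rw [e, aIter_append]
      rw [show aIter [a, b, c] (fun n => (f n).2.1) = fun _ => 0 from funext (hy a b c)]
      exact aIter_zero _ _
  · match l, h with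
    | a :: b :: c :: e :: l', _ =>
      rw [iter_thd a _ f hx]
      have e1 : a :: b :: c :: e :: l' = [a, b, c, e] ++ l' := rfl
      have e2 : b :: c :: e :: l' = [b, c, e] ++ l' := rfl
      rw [e1, aIter_append, e2, aIter_append]
      rw [show aIter [a, b, c, e] (fun n => (f n).2.2) = fun _ => 0 from funext (hz a b c e),
        show aIter [b, c, e] (fun n => (f n).2.1) = fun _ => 0 from funext (hy b c e),
        aIter_zero, aIter_zero, dotProduct_zero, sub_zero]

/-- necessary condition -/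
theorem of_isPolynomial (f : V → Heis k) (hf : IsPolynomial (filt k) f) :
    (∀ a b n, aIter [a, b] (fun n => (f n).1) n = 0) ∧
    (∀ a b c n, aIter [a, b, c] (fun n => (f n).2.1) n = 0) ∧
    (∀ a b c e n, aIter [a, b, c, e] (fun n => (f n).2.2) n = 0) := by
  have hx : ∀ a b n, aIter [a, b] (fun n => (f n).1) n = 0 := by
    intro a b n
    rw [← iter_fst]
    exact (hf [a, b] n).1 (by simp)
  have hy : ∀ a b c n, aIter [a, b, c] (fun n => (f n).2.1) n = 0 := by
    intro a b c n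
    rw [← iter_snd]
    exact (hf [a, b, c] n).2.1 (by simp)
  refine ⟨hx, hy, fun a b c e n => ?_⟩
  have h := (hf [a, b, c, e] n).2.2 (by simp)
  rw [iter_thd a _ f hx, hy b c e, dotProduct_zero, sub_zero] at h
  exact h

end iter

/-! ### integers -/

/-- the real number is an integer -/
def IsInt (r : ℝ) : Prop := ∃ z : ℤ, r = z

theorem IsInt.add {a b : ℝ} (ha : IsInt a) (hb : IsInt b) : IsInt (a + b) := by
  obtain ⟨x, rfl⟩ := ha; obtain ⟨y, rfl⟩ := hb; exact ⟨x + y, by push_cast; rfl⟩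
theorem IsInt.sub {a b : ℝ} (ha : IsInt a) (hb : IsInt b) : IsInt (a - b) := by
  obtain ⟨x, rfl⟩ := ha; obtain ⟨y, rfl⟩ := hb; exact ⟨x - y, by push_cast; rfl⟩
theorem IsInt.mul {a b : ℝ} (ha : IsInt a) (hb : IsInt b) : IsInt (a * b) := by
  obtain ⟨x, rfl⟩ := ha; obtain ⟨y, rfl⟩ := hb; exact ⟨x * y, by push_cast; rfl⟩
theorem IsInt.neg {a : ℝ} (ha : IsInt a) : IsInt (-a) := by
  obtain ⟨x, rfl⟩ := ha; exact ⟨-x, by push_cast; rfl⟩
theorem isInt_int (a : ℤ) : IsInt (a : ℝ) := ⟨a, rfl⟩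
theorem isInt_sum {ι : Type} (s : Finset ι) (f : ι → ℝ) (h : ∀ i ∈ s, IsInt (f i)) :
    IsInt (∑ i ∈ s, f i) := by
  classical
  induction s using Finset.induction_on with
  | empty => exact ⟨0, by simp⟩
  | insert a s ha ih =>
    rw [Finset.sum_insert ha]
    exact (h a (Finset.mem_insert_self a s)).add (ih fun i hi => h i (Finset.mem_insert_of_mem hi))

theorem mem_lattice' {a : Heis k} : a ∈ lattice k ↔ (∀ i, IsInt (a.1 i)) ∧
    (∀ i, IsInt (a.2.1 i)) ∧ IsInt a.2.2 := by
  rw [mem_lattice]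
  refine and_congr ⟨?_, ?_⟩ (and_congr ⟨?_, ?_⟩ Iff.rfl)
  · rintro ⟨x, hx⟩ i; exact ⟨x i, hx i⟩
  · intro h; choose x hx using h; exact ⟨x, hx⟩
  · rintro ⟨x, hx⟩ i; exact ⟨x i, hx i⟩
  · intro h; choose x hx using h; exact ⟨x, hx⟩

/-! ### the sequence -/

variable {r : ℕ}

/-- the linear forms -/
def L (n : Fin (r + 2) → ℤ) : Fin (r + 1) → ℝ :=
  Fin.cons (n 0 : ℝ) (fun j : Fin r => 2 * (n j.succ.succ : ℝ))

/-- the sequence -/
noncomputable def seq (p : ℕ) (n : Fin (r + 2) → ℤ) : Heis (r + 1) :=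
  mk (fun i => (n i.succ : ℝ) / p) (fun i => (n 0 : ℝ) * L n i / p)
    (∑ j : Fin r, (n 0 : ℝ) * (n j.succ.succ : ℝ) ^ 2 / (p : ℝ) ^ 2)

theorem seq_fst (p : ℕ) (n : Fin (r + 2) → ℤ) : (seq p n).1 = fun i => (n i.succ : ℝ) / p := rfl
theorem seq_snd (p : ℕ) (n : Fin (r + 2) → ℤ) :
    (seq p n).2.1 = fun i => (n 0 : ℝ) * L n i / p := rfl
theorem seq_thd (p : ℕ) (n : Fin (r + 2) → ℤ) : (seq p n).2.2 =
    ∑ j : Fin r, (n 0 : ℝ) * (n j.succ.succ : ℝ) ^ 2 / (p : ℝ) ^ 2 := rfl

theorem seq_poly (p : ℕ) : IsPolynomial (filt (r + 1)) (seq (r := r) p) := by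
  apply isPolynomial_of
  · intro a b n
    funext i
    rw [aIter_apply]
    simp only [aIter, seq_fst, Pi.add_apply, Pi.zero_apply]
    push_cast
    ring
  · intro a b c n
    funext i
    rw [aIter_apply]
    refine Fin.cases ?_ (fun j => ?_) i
    · simp only [aIter, seq_snd, Pi.add_apply, Pi.zero_apply, L, Fin.cons_zero]
      push_cast
      ring
    · simp only [aIter, seq_snd, Pi.add_apply, Pi.zero_apply, L, Fin.cons_succ]
      push_cast
      ring
  · intro a b c e n
    simp only [seq_thd]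
    rw [aIter_sum]
    refine Finset.sum_eq_zero fun j _ => ?_
    simp only [aIter, Pi.add_apply]
    push_cast
    ring

/-- The integral quadratic form. -/
def MZ (n : Fin (r + 2) → ℤ) : ℤ := 2 * n 0 * n 1 + ∑ j : Fin r, n j.succ.succ ^ 2

theorem seq_periodic (p : ℕ) (hp : 0 < p) (n m : Fin (r + 2) → ℤ) (hn : (p : ℤ) ∣ MZ n) :
    (seq p (n + (p : ℤ) • m))⁻¹ * seq p n ∈ lattice (r + 1) := by
  have hp' : (p : ℝ) ≠ 0 := by positivity
  obtain ⟨q, hq⟩ := hn
  rw [mem_lattice']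
  refine ⟨fun i => ⟨-m i.succ, ?_⟩, ?_, ⟨m 0 * q + n 1 * m 0 ^ 2 + 2 * m 1 * n 0 * m 0 +
    p * m 1 * m 0 ^ 2 + ∑ j : Fin r, (2 * n j.succ.succ * m 0 * m j.succ.succ +
      n 0 * m j.succ.succ ^ 2 + p * m 0 * m j.succ.succ ^ 2), ?_⟩⟩
  · rw [mul_fst, inv_fst, Pi.add_apply, Pi.neg_apply, seq_fst, seq_fst]
    simp only [Pi.add_apply, Pi.smul_apply, smul_eq_mul]
    push_cast
    field_simp
    ring
  · intro i
    refine Fin.cases ?_ (fun j => ?_) i
    · refine ⟨-(2 * n 0 * m 0 + p * m 0 ^ 2), ?_⟩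
      rw [mul_snd, inv_snd, Pi.add_apply, Pi.neg_apply, seq_snd, seq_snd]
      simp only [Pi.add_apply, Pi.smul_apply, smul_eq_mul, L, Fin.cons_zero]
      push_cast
      field_simp
      ring
    · refine ⟨-(2 * n 0 * m j.succ.succ + 2 * m 0 * n j.succ.succ + 2 * p * m 0 * m j.succ.succ), ?_⟩
      rw [mul_snd, inv_snd, Pi.add_apply, Pi.neg_apply, seq_snd, seq_snd]
      simp only [Pi.add_apply, Pi.smul_apply, smul_eq_mul, L, Fin.cons_succ]
      push_cast
      field_simp
      ring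
  · have hq' : 2 * (n 0 : ℝ) * n 1 + ∑ j : Fin r, (n j.succ.succ : ℝ) ^ 2 = p * q := by
      have := congrArg (fun z : ℤ => (z : ℝ)) hq
      simp only [MZ] at this
      push_cast at this
      exact this
    rw [mul_thd, inv_thd, inv_fst, neg_dotProduct, seq_thd, seq_thd, seq_fst, seq_snd, seq_snd]
    simp only [dotProduct, Fin.sum_univ_succ (n := r), L, Fin.cons_zero, Fin.cons_succ, Pi.add_apply,
      Pi.smul_apply, smul_eq_mul]
    push_cast
    have h1 : (m 0 : ℝ) * q = (m 0 : ℝ) * (2 * n 0 * n 1) / p +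
        ∑ j : Fin r, (m 0 : ℝ) * (n j.succ.succ : ℝ) ^ 2 / p := by
      rw [← Finset.sum_div, ← Finset.mul_sum]
      field_simp
      rw [hq']
      ring
    rw [h1]
    have h01 : (Fin.succ (0 : Fin (r + 1))) = 1 := rfl
    rw [h01]
    have h2 : ∀ s1 s2 s3 s4 s5 s6 t1 t2 t3 : ℝ, -s1 + s2 + s3 - s4 = s5 + s6 →
        t1 - t2 = t3 → -s1 + (t1 + s2) + s3 + -(t2 + s4) = t3 + s5 + s6 := by
      intro s1 s2 s3 s4 s5 s6 t1 t2 t3 h h'
      linarith
    have h3 := h2 (∑ j : Fin r, ((n 0 : ℝ) + p * m 0) * ((n j.succ.succ : ℝ) + p * m j.succ.succ) ^ 2 / (p : ℝ) ^ 2)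
      (∑ j : Fin r, ((n j.succ.succ : ℝ) + p * m j.succ.succ) / p * (((n 0 : ℝ) + p * m 0) * (2 * ((n j.succ.succ : ℝ) + p * m j.succ.succ)) / p))
      (∑ j : Fin r, (n 0 : ℝ) * (n j.succ.succ : ℝ) ^ 2 / (p : ℝ) ^ 2)
      (∑ j : Fin r, ((n j.succ.succ : ℝ) + p * m j.succ.succ) / p * ((n 0 : ℝ) * (2 * (n j.succ.succ : ℝ)) / p))
      (∑ j : Fin r, (m 0 : ℝ) * (n j.succ.succ : ℝ) ^ 2 / p)
      (∑ j : Fin r, (2 * (n j.succ.succ : ℝ) * m 0 * m j.succ.succ +
        n 0 * (m j.succ.succ : ℝ) ^ 2 + p * m 0 * (m j.succ.succ : ℝ) ^ 2))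
      (((n 1 : ℝ) + p * m 1) / p * (((n 0 : ℝ) + p * m 0) * ((n 0 : ℝ) + p * m 0) / p))
      (((n 1 : ℝ) + p * m 1) / p * ((n 0 : ℝ) * (n 0 : ℝ) / p))
      ((m 0 : ℝ) * (2 * n 0 * n 1) / p + n 1 * m 0 ^ 2 + 2 * m 1 * n 0 * m 0 + p * m 1 * m 0 ^ 2)
      (by
        rw [← Finset.sum_neg_distrib, ← Finset.sum_add_distrib, ← Finset.sum_add_distrib,
          ← Finset.sum_sub_distrib, ← Finset.sum_add_distrib]
        refine Finset.sum_congr rfl fun j _ => ?_
        field_simp
        ring) (by field_simp; ring)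
    rw [h3]
    ring

/-! ### no extension -/

theorem no_ext (p : ℕ) (hp : 3 ≤ p) (f' : (Fin (r + 2) → ℤ) → Heis (r + 1))
    (hf' : IsPolynomial (filt (r + 1)) f')
    (hper : ∀ n m : Fin (r + 2) → ℤ, (f' (n + (p : ℤ) • m))⁻¹ * f' n ∈ lattice (r + 1))
    (h0 : (seq p 0)⁻¹ * f' 0 ∈ lattice (r + 1))
    (h1 : (seq p (Pi.single 0 1))⁻¹ * f' (Pi.single 0 1) ∈ lattice (r + 1))
    (h2 : (seq p (Pi.single 0 1 + Pi.single 0 1))⁻¹ * f' (Pi.single 0 1 + Pi.single 0 1) ∈
      lattice (r + 1))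
    (h3 : (seq p (Pi.single 1 1))⁻¹ * f' (Pi.single 1 1) ∈ lattice (r + 1)) : False := by
  obtain ⟨hx, hy, hz⟩ := of_isPolynomial f' hf'
  have hp' : (p : ℝ) ≠ 0 := by positivity
  set e0 : Fin (r + 2) → ℤ := Pi.single 0 1 with he0
  set e1 : Fin (r + 2) → ℤ := Pi.single 1 1 with he1
  set P0 : Fin (r + 2) → ℤ := (p : ℤ) • e0 with hP0
  set P1 : Fin (r + 2) → ℤ := (p : ℤ) • e1 with hP1
  -- componentwise versions
  have hxi : ∀ i a b n, aIter [a, b] (fun n => (f' n).1 i) n = 0 := by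
    intro i a b n
    rw [← aIter_apply (f := fun n => (f' n).1), hx]; rfl
  have hyi : ∀ i a b c n, aIter [a, b, c] (fun n => (f' n).2.1 i) n = 0 := by
    intro i a b c n
    rw [← aIter_apply (f := fun n => (f' n).2.1), hy]; rfl
  -- periodicity
  have per2 : ∀ n m i, IsInt ((f' (n + (p : ℤ) • m)).2.1 i - (f' n).2.1 i) := by
    intro n m i
    have := ((mem_lattice'.1 (hper n m)).2.1 i).neg
    rw [mul_snd, inv_snd, Pi.add_apply, Pi.neg_apply] at this
    convert this using 1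
    ring
  have per3 : ∀ n m, IsInt ((f' (n + (p : ℤ) • m)).2.2 - (f' n).2.2 -
      ∑ i, (f' (n + (p : ℤ) • m)).1 i * ((f' (n + (p : ℤ) • m)).2.1 i - (f' n).2.1 i)) := by
    intro n m
    have := ((mem_lattice'.1 (hper n m)).2.2).neg
    rw [mul_thd, inv_thd, inv_fst, neg_dotProduct] at this
    convert this using 1
    simp only [dotProduct, mul_sub, Finset.sum_sub_distrib]
    ring
  -- values at the points of V
  have vx : ∀ w, (seq p w)⁻¹ * f' w ∈ lattice (r + 1) →
      (∀ i, IsInt ((f' w).1 i - (w i.succ : ℝ) / p)) ∧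
      (∀ i, IsInt ((f' w).2.1 i - (w 0 : ℝ) * L w i / p)) := by
    intro w hw
    obtain ⟨g1, g2, -⟩ := mem_lattice'.1 hw
    refine ⟨fun i => ?_, fun i => ?_⟩
    · have := g1 i
      rw [mul_fst, inv_fst, Pi.add_apply, Pi.neg_apply, seq_fst] at this
      convert this using 1
      ring
    · have := g2 i
      rw [mul_snd, inv_snd, Pi.add_apply, Pi.neg_apply, seq_snd] at this
      convert this using 1
      ring
  have e00 : e0 0 = 1 := by rw [he0]; simp
  have e0s : ∀ i : Fin (r + 1), e0 i.succ = 0 := by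
    intro i; rw [he0]; simp
  have e10 : e1 0 = 0 := by rw [he1]; simp
  have e1s : e1 (Fin.succ 0) = 1 := by rw [he1]; simp
  have e1ss : ∀ j : Fin r, e1 j.succ.succ = 0 := by
    intro j
    have hne : j.succ.succ ≠ (1 : Fin (r + 2)) := by
      intro h
      have h' : j.succ.succ = (Fin.succ 0 : Fin (r + 2)) := h
      exact Fin.succ_ne_zero j (Fin.succ_injective _ h')
    rw [he1, Pi.single_eq_of_ne hne]
  -- `α i = X_i (e0) - X_i (0)` is an integer
  have hα : ∀ i, IsInt ((f' e0).1 i - (f' 0).1 i) := by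
    intro i
    have a := (vx _ h1).1 i
    have b := (vx _ h0).1 i
    rw [e0s] at a
    simp only [Pi.zero_apply, Int.cast_zero, zero_div, sub_zero] at a b
    exact a.sub b
  have hα's : ∀ j : Fin r, IsInt ((f' e1).1 j.succ - (f' 0).1 j.succ) := by
    intro i
    have a := (vx _ h3).1 i.succ
    have b := (vx _ h0).1 i.succ
    rw [e1ss] at a
    simp only [Pi.zero_apply, Int.cast_zero, zero_div, sub_zero] at a b
    exact a.sub b
  have hα'0 : IsInt ((f' e1).1 0 - (f' 0).1 0 - 1 / p) := by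
    have a := (vx _ h3).1 0
    have b := (vx _ h0).1 0
    rw [e1s] at a
    simp only [Pi.zero_apply, Int.cast_zero, zero_div, sub_zero, Int.cast_one] at a b
    have c := a.sub b
    convert c using 1
    ring
  have hY : IsInt ((f' (e0 + e0)).2.1 0 - 2 * (f' e0).2.1 0 + (f' 0).2.1 0 - 2 / p) := by
    have a := (vx _ h2).2 0
    have b := (vx _ h1).2 0
    have c := (vx _ h0).2 0
    simp only [L, Fin.cons_zero, Pi.add_apply, Pi.zero_apply, Int.cast_zero, zero_mul, zero_div,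
      sub_zero, e00] at a b c
    have d := (a.sub ((isInt_int 2).mul b)).add c
    convert d using 1
    push_cast
    ring
  -- the differences
  have T1 : IsInt ((f' (e0 + e0 + P1)).2.2 - (f' (e0 + e0)).2.2 - 2 * ((f' (e0 + P1)).2.2 -
      (f' e0).2.2) + ((f' (0 + P1)).2.2 - (f' 0).2.2)) := by
    have a := per3 (e0 + e0) e1
    have b := per3 e0 e1
    have c := per3 0 e1
    rw [← hP1] at a b c
    have d := (a.sub ((isInt_int 2).mul b)).add c
    have e : IsInt ((∑ i, (f' (e0 + e0 + P1)).1 i * ((f' (e0 + e0 + P1)).2.1 i - (f' (e0 + e0)).2.1 i)) -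
        2 * (∑ i, (f' (e0 + P1)).1 i * ((f' (e0 + P1)).2.1 i - (f' e0).2.1 i)) +
        ∑ i, (f' (0 + P1)).1 i * ((f' (0 + P1)).2.1 i - (f' 0).2.1 i)) := by
      rw [Finset.mul_sum, ← Finset.sum_sub_distrib, ← Finset.sum_add_distrib]
      refine isInt_sum _ _ fun i _ => ?_
      have x1 := hxi i e0 P1 0
      have x2 := hxi i e0 (e0 + P1) 0
      have y1 := hyi i e0 e0 P1 0
      have b1 := per2 e0 e1 i
      have b2 := per2 0 e1 i
      rw [← hP1] at b1 b2
      simp only [aIter] at x1 x2 y1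
      rw [show (0 : Fin (r + 2) → ℤ) + P1 + e0 = e0 + P1 by abel,
        show (0 : Fin (r + 2) → ℤ) + e0 = e0 by abel] at x1
      rw [show (0 : Fin (r + 2) → ℤ) + (e0 + P1) + e0 = e0 + e0 + P1 by abel,
        show (0 : Fin (r + 2) → ℤ) + (e0 + P1) = e0 + P1 by abel,
        show (0 : Fin (r + 2) → ℤ) + e0 = e0 by abel] at x2
      rw [show (0 : Fin (r + 2) → ℤ) + P1 + e0 + e0 = e0 + e0 + P1 by abel,
        show (0 : Fin (r + 2) → ℤ) + P1 + e0 = e0 + P1 by abel,
        show (0 : Fin (r + 2) → ℤ) + e0 + e0 = e0 + e0 by abel,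
        show (0 : Fin (r + 2) → ℤ) + e0 = e0 by abel] at y1
      have key := ((isInt_int 2).mul ((hα i).mul (b1.sub b2)))
      convert key using 1
      have X1 : (f' (e0 + P1)).1 i = (f' (0 + P1)).1 i + ((f' e0).1 i - (f' 0).1 i) := by linarith
      have X2 : (f' (e0 + e0 + P1)).1 i = (f' (0 + P1)).1 i + 2 * ((f' e0).1 i - (f' 0).1 i) := by
        linarith
      have Y1 : (f' (e0 + e0 + P1)).2.1 i - (f' (e0 + e0)).2.1 i =
          2 * ((f' (e0 + P1)).2.1 i - (f' e0).2.1 i) - ((f' (0 + P1)).2.1 i - (f' 0).2.1 i) := by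
        linarith
      rw [Y1, X1, X2]
      push_cast
      ring
    have g := d.add e
    convert g using 1
    push_cast
    ring
  have T2 : IsInt ((f' (e0 + e1 + P0)).2.2 - (f' (e0 + e1)).2.2 - ((f' (e0 + P0)).2.2 -
      (f' e0).2.2) - ((f' (e1 + P0)).2.2 - (f' e1).2.2) + ((f' (0 + P0)).2.2 - (f' 0).2.2)
      - 2 / p) := by
    have a := per3 (e0 + e1) e0
    have b := per3 e0 e0
    have b' := per3 e1 e0
    have c := per3 0 e0
    rw [← hP0] at a b b' c
    have d := ((a.sub b).sub b').add c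
    have e : IsInt ((∑ i, (f' (e0 + e1 + P0)).1 i * ((f' (e0 + e1 + P0)).2.1 i - (f' (e0 + e1)).2.1 i)) -
        (∑ i, (f' (e0 + P0)).1 i * ((f' (e0 + P0)).2.1 i - (f' e0).2.1 i)) -
        (∑ i, (f' (e1 + P0)).1 i * ((f' (e1 + P0)).2.1 i - (f' e1).2.1 i)) +
        (∑ i, (f' (0 + P0)).1 i * ((f' (0 + P0)).2.1 i - (f' 0).2.1 i)) - 2 / p) := by
      rw [← Finset.sum_sub_distrib, ← Finset.sum_sub_distrib, ← Finset.sum_add_distrib]
      have hterm : ∀ i, (f' (e0 + e1 + P0)).1 i * ((f' (e0 + e1 + P0)).2.1 i - (f' (e0 + e1)).2.1 i) -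
          (f' (e0 + P0)).1 i * ((f' (e0 + P0)).2.1 i - (f' e0).2.1 i) -
          (f' (e1 + P0)).1 i * ((f' (e1 + P0)).2.1 i - (f' e1).2.1 i) +
          (f' (0 + P0)).1 i * ((f' (0 + P0)).2.1 i - (f' 0).2.1 i) =
          ((f' e0).1 i - (f' 0).1 i) * (((f' (e1 + P0)).2.1 i - (f' e1).2.1 i) -
            ((f' (0 + P0)).2.1 i - (f' 0).2.1 i)) +
          ((f' e1).1 i - (f' 0).1 i) * (((f' (e0 + P0)).2.1 i - (f' e0).2.1 i) -
            ((f' (0 + P0)).2.1 i - (f' 0).2.1 i)) := by
        intro i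
        have x1 := hxi i e0 P0 0
        have x2 := hxi i e1 P0 0
        have x3 := hxi i e1 (e0 + P0) 0
        have y1 := hyi i e0 e1 P0 0
        simp only [aIter] at x1 x2 x3 y1
        rw [show (0 : Fin (r + 2) → ℤ) + P0 + e0 = e0 + P0 by abel,
          show (0 : Fin (r + 2) → ℤ) + e0 = e0 by abel] at x1
        rw [show (0 : Fin (r + 2) → ℤ) + P0 + e1 = e1 + P0 by abel,
          show (0 : Fin (r + 2) → ℤ) + e1 = e1 by abel] at x2
        rw [show (0 : Fin (r + 2) → ℤ) + (e0 + P0) + e1 = e0 + e1 + P0 by abel,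
          show (0 : Fin (r + 2) → ℤ) + (e0 + P0) = e0 + P0 by abel,
          show (0 : Fin (r + 2) → ℤ) + e1 = e1 by abel] at x3
        rw [show (0 : Fin (r + 2) → ℤ) + P0 + e1 + e0 = e0 + e1 + P0 by abel,
          show (0 : Fin (r + 2) → ℤ) + P0 + e0 = e0 + P0 by abel,
          show (0 : Fin (r + 2) → ℤ) + P0 + e1 = e1 + P0 by abel,
          show (0 : Fin (r + 2) → ℤ) + e1 + e0 = e0 + e1 by abel,
          show (0 : Fin (r + 2) → ℤ) + e1 = e1 by abel,
          show (0 : Fin (r + 2) → ℤ) + e0 = e0 by abel] at y1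
        have X1 : (f' (e0 + P0)).1 i = (f' (0 + P0)).1 i + ((f' e0).1 i - (f' 0).1 i) := by linarith
        have X2 : (f' (e1 + P0)).1 i = (f' (0 + P0)).1 i + ((f' e1).1 i - (f' 0).1 i) := by linarith
        have X3 : (f' (e0 + e1 + P0)).1 i = (f' (0 + P0)).1 i + ((f' e0).1 i - (f' 0).1 i) +
            ((f' e1).1 i - (f' 0).1 i) := by linarith
        have Y1 : (f' (e0 + e1 + P0)).2.1 i - (f' (e0 + e1)).2.1 i =
          ((f' (e0 + P0)).2.1 i - (f' e0).2.1 i) + ((f' (e1 + P0)).2.1 i - (f' e1).2.1 i) -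
            ((f' (0 + P0)).2.1 i - (f' 0).2.1 i) := by
          linarith
        rw [Y1, X1, X2, X3]
        ring
      rw [Finset.sum_congr rfl fun i _ => hterm i, Fin.sum_univ_succ]
      have hb : ∀ i, IsInt (((f' (e0 + P0)).2.1 i - (f' e0).2.1 i) -
            ((f' (0 + P0)).2.1 i - (f' 0).2.1 i)) := by
        intro i
        have b1 := per2 e0 e0 i
        have b2 := per2 0 e0 i
        rw [← hP0] at b1 b2
        exact b1.sub b2
      have hb' : ∀ i, IsInt (((f' (e1 + P0)).2.1 i - (f' e1).2.1 i) -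
            ((f' (0 + P0)).2.1 i - (f' 0).2.1 i)) := by
        intro i
        have b1 := per2 e1 e0 i
        have b2 := per2 0 e0 i
        rw [← hP0] at b1 b2
        exact b1.sub b2
      have hrest := isInt_sum Finset.univ (fun j : Fin r =>
        ((f' e0).1 j.succ - (f' 0).1 j.succ) * (((f' (e1 + P0)).2.1 j.succ - (f' e1).2.1 j.succ) -
            ((f' (0 + P0)).2.1 j.succ - (f' 0).2.1 j.succ)) +
          ((f' e1).1 j.succ - (f' 0).1 j.succ) * (((f' (e0 + P0)).2.1 j.succ - (f' e0).2.1 j.succ) -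
            ((f' (0 + P0)).2.1 j.succ - (f' 0).2.1 j.succ)))
        (fun j _ => ((hα j.succ).mul (hb' j.succ)).add ((hα's j).mul (hb j.succ)))
      -- the main term
      have hmain : (((f' (e0 + P0)).2.1 0 - (f' e0).2.1 0) - ((f' (0 + P0)).2.1 0 - (f' 0).2.1 0)) =
          p * ((f' (e0 + e0)).2.1 0 - 2 * (f' e0).2.1 0 + (f' 0).2.1 0) := by
        have := affine_smul (f := fun n => (f' (n + e0)).2.1 0 - (f' n).2.1 0)
          (fun a b n => hyi 0 e0 a b n) p e0 0
        rw [← hP0, show (0 : Fin (r + 2) → ℤ) + P0 + e0 = e0 + P0 by abel,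
          show (0 : Fin (r + 2) → ℤ) + e0 + e0 = e0 + e0 by abel,
          show (0 : Fin (r + 2) → ℤ) + e0 = e0 by abel] at this
        linarith
      have h4 := (((hα 0).mul (hb' 0)).add (hα'0.mul (hb 0))).add (hrest.add hY)
      convert h4 using 1
      rw [hmain]
      field_simp
      ring
    have g := d.add e
    convert g using 1
    ring
  -- the two differences coincide
  have hT : (f' (e0 + e0 + P1)).2.2 - (f' (e0 + e0)).2.2 - 2 * ((f' (e0 + P1)).2.2 -
      (f' e0).2.2) + ((f' (0 + P1)).2.2 - (f' 0).2.2) =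
      (f' (e0 + e1 + P0)).2.2 - (f' (e0 + e1)).2.2 - ((f' (e0 + P0)).2.2 -
      (f' e0).2.2) - ((f' (e1 + P0)).2.2 - (f' e1).2.2) + ((f' (0 + P0)).2.2 - (f' 0).2.2) := by
    have a := affine_smul (f := aIter [e0, e0] (fun n => (f' n).2.2))
      (fun a b n => hz e0 e0 a b n) p e1 0
    have b := affine_smul (f := aIter [e0, e1] (fun n => (f' n).2.2))
      (fun a b n => hz e0 e1 a b n) p e0 0
    simp only [aIter] at a b
    rw [← hP1] at a
    rw [← hP0] at b
    rw [show (0 : Fin (r + 2) → ℤ) + P1 + e0 + e0 = e0 + e0 + P1 by abel,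
      show (0 : Fin (r + 2) → ℤ) + P1 + e0 = e0 + P1 by abel,
      show (0 : Fin (r + 2) → ℤ) + e1 + e0 + e0 = e0 + e0 + e1 by abel,
      show (0 : Fin (r + 2) → ℤ) + e1 + e0 = e0 + e1 by abel,
      show (0 : Fin (r + 2) → ℤ) + e0 + e0 = e0 + e0 by abel,
      show (0 : Fin (r + 2) → ℤ) + e0 = e0 by abel,
      show (0 : Fin (r + 2) → ℤ) + e1 = e1 by abel] at a
    rw [show (0 : Fin (r + 2) → ℤ) + P0 + e1 + e0 = e0 + e1 + P0 by abel,
      show (0 : Fin (r + 2) → ℤ) + P0 + e0 = e0 + P0 by abel,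
      show (0 : Fin (r + 2) → ℤ) + P0 + e1 = e1 + P0 by abel,
      show (0 : Fin (r + 2) → ℤ) + e0 + e1 + e0 = e0 + e0 + e1 by abel,
      show (0 : Fin (r + 2) → ℤ) + e0 + e1 = e0 + e1 by abel,
      show (0 : Fin (r + 2) → ℤ) + e1 + e0 = e0 + e1 by abel,
      show (0 : Fin (r + 2) → ℤ) + e0 + e0 = e0 + e0 by abel,
      show (0 : Fin (r + 2) → ℤ) + e0 = e0 by abel,
      show (0 : Fin (r + 2) → ℤ) + e1 = e1 by abel] at b
    linarith
  rw [← hT] at T2
  obtain ⟨w, hw⟩ := T1.sub T2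
  have h5 : (2 : ℝ) / p = w := by linarith
  have h6 : (2 : ℝ) = w * p := by
    rw [← h5]; field_simp
  have h7 : (2 : ℤ) = w * p := by exact_mod_cast h6
  have h8 : (p : ℤ) ∣ 2 := ⟨w, by rw [h7]; ring⟩
  have h9 := Int.le_of_dvd (by norm_num) h8
  omega

end Pool.Agent.N853.PQ
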